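import Pool.Agent.Y808.LB.Stm
import Pool.Agent.H94R2.BQ.R

/-!
# Project LB, part CC: charts from coordinates
-/

set_option autoImplicit false

open Polynomial IsLocalRing BQ Pool.Agent.H40.BP Pool.Agent.Y808.LB

noncomputable section

namespace Pool.Agent.Y185.LB

theorem af_loc {R : Type} [CommRing R] [IsDomain R] (hAF : AF R) (n : ℕ)
    (q : Ideal (MvPolynomial (Fin n) R)) [q.IsPrime] : AF (Localization.AtPrime q) := by
  intro m
  have h1 := hAF (m + n)
  have e1 : MvPolynomial (Fin (m + n)) R ≃+*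
      MvPolynomial (Fin m) (MvPolynomial (Fin n) R) :=
    ((MvPolynomial.renameEquiv R finSumFinEquiv.symm).trans
      (MvPolynomial.sumAlgEquiv R (Fin m) (Fin n))).toRingEquiv
  exact roitman q m (IdemFree.of_equiv e1 h1)

theorem t_CC : S_LIN → S_CC := by
  intro hLIN R B _ _ _ _ _ _ hAF hEss n d c g hd hco hdim
  set ev : MvPolynomial (Fin n) R →+* B := MvPolynomial.eval₂Hom (algebraMap R B) c with hev
  set q : Ideal (MvPolynomial (Fin n) R) := (maximalIdeal B).comap ev with hq
  haveI hqp : q.IsPrime := Ideal.comap_isPrime _ _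
  have hmemq : ∀ P, P ∈ q ↔ ev P ∈ maximalIdeal B := fun P => Iff.rfl
  have hunit : ∀ y : q.primeCompl, IsUnit (ev y) := fun y => by
    by_contra h
    exact y.2 ((mem_maximalIdeal _).2 h)
  let B0 : Type := Localization.AtPrime q
  let al : MvPolynomial (Fin n) R →+* B0 := algebraMap _ _
  let φ0 : B0 →+* B := IsLocalization.lift (M := q.primeCompl) hunit
  have hφ0 : ∀ P, φ0 (al P) = ev P := fun P => IsLocalization.lift_eq hunit P
  have hunit0 : ∀ Q, Q ∉ q → IsUnit (al Q) := fun Q hQ =>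
    IsLocalization.map_units B0 (⟨Q, hQ⟩ : q.primeCompl)
  haveI hloc : IsLocalHom φ0 := ⟨fun a ha => by
    obtain ⟨P, Q, hPQ⟩ := IsLocalization.exists_mk'_eq q.primeCompl a
    have h1 : a * al Q = al P := by
      rw [← hPQ]; exact IsLocalization.mk'_spec _ _ _
    have h2 : IsUnit (ev P) := by
      rw [← hφ0, ← h1, map_mul]
      exact ha.mul (by rw [hφ0]; exact hunit Q)
    have h3 : P ∉ q := by
      rw [hmemq, mem_maximalIdeal]
      exact fun h => h h2
    have h4 := hunit0 P h3
    rw [← h1] at h4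
    exact isUnit_of_mul_isUnit_left h4⟩
  letI : Algebra B0 B := φ0.toAlgebra
  have halg : ∀ b : B0, algebraMap B0 B b = φ0 b := fun _ => rfl
  haveI : IsLocalHom (algebraMap B0 B) := hloc
  haveI : IsScalarTower R B0 B := IsScalarTower.of_algebraMap_eq fun x => by
    rw [halg, IsScalarTower.algebraMap_apply R (MvPolynomial (Fin n) R) B0,
      MvPolynomial.algebraMap_eq]
    show _ = φ0 (al _)
    rw [hφ0, hev, MvPolynomial.eval₂Hom_C]
  haveI hEss' : Algebra.EssFiniteType B0 B := Algebra.EssFiniteType.of_comp R B0 B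
  haveI : IsNoetherianRing B := Algebra.EssFiniteType.isNoetherianRing R B
  haveI : IsNoetherianRing B0 := IsLocalization.isNoetherianRing q.primeCompl B0 inferInstance
  have hgq : ∀ i, g i ∈ q := by
    intro i
    rw [hmemq, ← hco.gen]
    exact Ideal.subset_span ⟨i, rfl⟩
  have hmax0 : maximalIdeal B0 = Ideal.map al q := (Localization.AtPrime.map_eq_maximalIdeal).symm
  have hmax : maximalIdeal B0 = Ideal.span (Set.range fun i => al (g i)) := by
    rw [hmax0]
    apply le_antisymm
    · rw [Ideal.map_le_iff_le_comap]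
      intro P hP
      rw [Ideal.mem_comap]
      obtain ⟨Q, hQ, hQP⟩ := hco.ker P hP
      have h1 : al (Q * P) ∈ Ideal.map al (Ideal.span (Set.range g)) := Ideal.mem_map_of_mem _ hQP
      rw [Ideal.map_span, ← Set.range_comp, map_mul] at h1
      exact ((Ideal.unit_mul_mem_iff_mem _ (hunit0 Q hQ)).1 h1)
    · rw [Ideal.span_le]
      rintro _ ⟨i, rfl⟩
      exact Ideal.mem_map_of_mem _ (hgq i)
  have hmap : (maximalIdeal B0).map (algebraMap B0 B) = maximalIdeal B := by
    rw [hmax, Ideal.map_span, ← Set.range_comp, ← hco.gen]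
    congr 2
    funext i
    exact hφ0 (g i)
  have hres : ∀ z : B, ∃ a : B0, z - algebraMap B0 B a ∈ maximalIdeal B := by
    intro z
    obtain ⟨P, Q, hQ, hz⟩ := hco.res z
    refine ⟨IsLocalization.mk' B0 P (⟨Q, hQ⟩ : q.primeCompl), ?_⟩
    have h1 : φ0 (IsLocalization.mk' B0 P (⟨Q, hQ⟩ : q.primeCompl)) * ev Q = ev P := by
      rw [← hφ0, ← hφ0, ← map_mul]
      congr 1
      exact IsLocalization.mk'_spec _ _ _
    rw [halg]
    have h2 : ev Q * (z - φ0 (IsLocalization.mk' B0 P (⟨Q, hQ⟩ : q.primeCompl))) ∈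
        maximalIdeal B := by
      rw [mul_sub, mul_comm (ev Q) (φ0 _), h1]
      exact hz
    rcases (maximalIdeal.isMaximal B).isPrime.mem_or_mem h2 with h3 | h3
    · exact absurd h3 hQ
    · exact h3
  obtain ⟨h, hh, hpatch⟩ := hLIN B0 B hEss' d (fun i => al (g i)) hd hmax hmap hres hdim
  refine ⟨B0, inferInstance, φ0, h, af_loc hAF n q, hpatch, ?_⟩
  rw [← hmap]
  exact Ideal.mem_map_of_mem _ hh

end Pool.Agent.Y185.LB
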